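import Pool.Agent.Lib.helper5.Extral

namespace Pool.Agent.Results.MP_160dec_gt.Metrizable

universe u

/-- there is a continuous extender of continuous real functions along `e` -/
def TEmbedded {Y X : Type u} [TopologicalSpace Y] [TopologicalSpace X] (e : Y → X) : Prop :=
  ∃ φ : {f : Y → ℝ // Continuous f} → {g : X → ℝ // Continuous g},
    Continuous φ ∧ ∀ (f : {f : Y → ℝ // Continuous f}) (y : Y), (φ f).1 (e y) = f.1 y

/-- `X` is t-embedded in every Tychonoff space containing it as a closed subspace -/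
def TExtral (X : Type u) [TopologicalSpace X] : Prop :=
  ∀ (Z : Type u) [TopologicalSpace Z] [T35Space Z] (e : X → Z), Topology.IsClosedEmbedding e →
    TEmbedded e

/-- every closed subspace of `X` is t-embedded in `X` -/
def TExtendial (X : Type u) [TopologicalSpace X] : Prop :=
  ∀ Y : Set X, IsClosed Y → TEmbedded (Subtype.val : Y → X)

theorem result (X : Type u) [TopologicalSpace X] [T35Space X] (h : TExtral X)
    (h' : TExtendial X) : TopologicalSpace.MetrizableSpace X := by
  by_contra hm
  obtain ⟨ι, hι⟩ : ∃ ι : Type, Cardinal.mk ι = Cardinal.aleph 1 := ⟨_, Cardinal.mk_out _⟩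
  have := H5C.uncountable_of_aleph hι
  obtain ⟨e, he⟩ := H5C.TE.cantor h hm ι hι
  have := H5C.TE.compact h
  obtain ⟨φ, h1, h2⟩ := h _ _ (H5C.cube_emb X)
  obtain ⟨ψ, h3, h4⟩ := h' _ (isCompact_range he.continuous).isClosed
  let t := he.toHomeomorph
  let ρ : H5C.Cp (ι → Bool) → H5C.Cp (Set.range e) := fun f => ⟨f.1 ∘ t.symm, f.2.comp t.symm.continuous⟩
  have hρ : Continuous ρ := by
    refine Continuous.subtype_mk (continuous_pi fun y => ?_) _
    exact (continuous_apply (t.symm y)).comp continuous_subtype_val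
  obtain ⟨S, hS, h5⟩ := H5C.sep_of_ext (e := fun x (f : C(X, unitInterval)) => f (e x))
    H5C.rigid_of_td (h1.comp (h3.comp hρ)) fun f x =>
      (h2 _ (e x)).trans ((h4 _ (t x)).trans (by simp [ρ]))
  obtain ⟨x, y, h6, h7⟩ := H5C.not_sep ((H5C.cube_emb X).continuous.comp he.continuous) hS
  exact h6 (h5 x y h7)

end Pool.Agent.Results.MP_160dec_gt.Metrizable
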